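import Pool.Agent.Y93.SK.UniqE

/-!
# Project DI: the abstract inequality with damping
(after `Pool.Agent.Y93.SK.abs_uniq`; with damping the squares of the coefficients are only
one-sided Lipschitz, so Dini's theorem is replaced by a finite partition)
-/

set_option autoImplicit false

open Set Filter Topology MeasureTheory Metric

namespace Pool.Agent.Y170.DI

open Pool.Agent.Y93.SK (gron zero_of_le)

section tm

variable {ι : Type}

theorem sq_derivD (s : ι → ℝ) {A : Set ℝ} {τ : ℝ} (c g : ι → ℝ → ℝ)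
    (hd : ∀ i, HasDerivWithinAt (c i) (s i * c i τ + g i τ) A τ) (F : Finset ι) :
    HasDerivWithinAt (fun x => ∑ i ∈ F, c i x ^ 2)
      (2 * ∑ i ∈ F, s i * c i τ ^ 2 + 2 * ∑ i ∈ F, c i τ * g i τ) A τ := by
  have h1 : HasDerivWithinAt (fun x => ∑ i ∈ F, c i x ^ 2)
      (∑ i ∈ F, (2 * c i τ * (s i * c i τ + g i τ))) A τ := by
    refine HasDerivWithinAt.fun_sum fun i _ => ?_
    have h2 := (hd i).fun_pow 2
    refine h2.congr_deriv ?_
    norm_num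
  refine h1.congr_deriv ?_
  rw [Finset.mul_sum, Finset.mul_sum, ← Finset.sum_add_distrib]
  exact Finset.sum_congr rfl fun i _ => by ring

/-- uniform convergence from one-sided Lipschitz bounds -/
theorem unif_of_onesided {r : Finset ι → ℝ → ℝ} {b L : ℝ} (hb : 0 ≤ b) (hL : 0 ≤ L)
    (hr : ∀ τ ∈ Icc 0 b, ∀ ε > 0, ∃ F0 : Finset ι, ∀ F, F0 ⊆ F → r F τ < ε)
    (hl : ∀ F, ∀ x ∈ Icc 0 b, ∀ y ∈ Icc 0 b, x ≤ y → r F y ≤ r F x + L * (y - x))
    {ε : ℝ} (hε : 0 < ε) : ∃ F, ∀ x ∈ Icc 0 b, r F x < ε := by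
  classical
  rcases hb.eq_or_lt with hb0 | hb0
  · obtain ⟨F0, hF0⟩ := hr 0 ⟨le_rfl, hb⟩ ε hε
    refine ⟨F0, fun x hx => ?_⟩
    have : x = 0 := le_antisymm (by rw [hb0]; exact hx.2) hx.1
    rw [this]
    exact hF0 F0 (Finset.Subset.refl _)
  obtain ⟨n, hn⟩ := exists_nat_gt (L * b * 2 / ε)
  have hn0 : (0 : ℝ) < n := lt_of_le_of_lt (by positivity) hn
  have hn1 : 0 < n := by exact_mod_cast hn0
  have hpt : ∀ k : ℕ, ∃ F0 : Finset ι, k ≤ n → ∀ F, F0 ⊆ F → r F (b * k / n) < ε / 2 := by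
    intro k
    by_cases hk : k ≤ n
    · have hk' : (k : ℝ) ≤ n := by exact_mod_cast hk
      have hmem : b * k / n ∈ Icc 0 b := by
        refine ⟨by positivity, ?_⟩
        rw [div_le_iff₀ hn0]
        exact mul_le_mul_of_nonneg_left hk' hb
      obtain ⟨F0, hF0⟩ := hr _ hmem (ε / 2) (by linarith)
      exact ⟨F0, fun _ => hF0⟩
    · exact ⟨∅, fun h => absurd h hk⟩
  choose Fk hFk using hpt
  refine ⟨(Finset.range (n + 1)).biUnion Fk, fun y hy => ?_⟩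
  obtain ⟨k, hk⟩ : ∃ k : ℕ, k = ⌊n * y / b⌋₊ := ⟨_, rfl⟩
  have hq0 : 0 ≤ n * y / b := div_nonneg (mul_nonneg hn0.le hy.1) hb
  have hk1 : (k : ℝ) ≤ n * y / b := by
    rw [hk]
    exact Nat.floor_le hq0
  have hk2 : n * y / b < k + 1 := by
    rw [hk]
    exact Nat.lt_floor_add_one _
  have hqn : n * y / b ≤ n := by
    rw [div_le_iff₀ hb0]
    exact mul_le_mul_of_nonneg_left hy.2 hn0.le
  have hkn : k ≤ n := by
    have : (k : ℝ) ≤ n := hk1.trans hqn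
    exact_mod_cast this
  have hxy : b * k / n ≤ y := by
    rw [div_le_iff₀ hn0]
    rw [le_div_iff₀ hb0] at hk1
    linarith
  have hyx : y - b * k / n ≤ b / n := by
    rw [div_lt_iff₀ hb0] at hk2
    rw [sub_le_iff_le_add, ← add_div, le_div_iff₀ hn0]
    linarith
  have hmem : b * k / n ∈ Icc 0 b := ⟨by positivity, hxy.trans hy.2⟩
  have h1 := hFk k hkn ((Finset.range (n + 1)).biUnion Fk)
    (Finset.subset_biUnion_of_mem Fk (Finset.mem_range.2 (by omega)))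
  have h2 := hl ((Finset.range (n + 1)).biUnion Fk) _ hmem y hy hxy
  have h3 : L * (y - b * k / n) ≤ L * (b / n) := mul_le_mul_of_nonneg_left hyx hL
  have h4 : L * (b / n) < ε / 2 := by
    rw [div_lt_iff₀ hε] at hn
    rw [← mul_div_assoc, div_lt_iff₀ hn0]
    linarith
  linarith

/-- the abstract uniqueness lemma with damping -/
theorem abs_uniqD (s : ι → ℝ) (hs : ∀ i, s i ≤ 0)
    {b M C V B : ℝ} (hb : 0 ≤ b) (hM : 0 ≤ M) (hC : 0 ≤ C) (hV : 0 ≤ V) (c g : ι → ℝ → ℝ)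
    (W : ℝ → ℝ) (hB : ∀ τ ∈ Icc 0 b, W τ ≤ B)
    (hd : ∀ i, ∀ τ ∈ Icc 0 b, HasDerivWithinAt (c i) (s i * c i τ + g i τ) (Icc 0 b) τ)
    (h0 : ∀ i, c i 0 = 0)
    (hle : ∀ τ ∈ Icc 0 b, ∀ F : Finset ι, ∑ i ∈ F, c i τ ^ 2 ≤ W τ)
    (hcv : ∀ τ ∈ Icc 0 b, ∀ ε > 0, ∃ F0 : Finset ι, ∀ F, F0 ⊆ F → W τ - ∑ i ∈ F, c i τ ^ 2 < ε)
    (h1 : ∀ τ ∈ Icc 0 b, ∀ F : Finset ι,
      |∑ i ∈ F, c i τ * g i τ| ≤ C * (V + ∑ i ∈ F, c i τ ^ 2))
    (h2 : ∀ τ ∈ Icc 0 b, ∀ F : Finset ι, ∀ δ : ℝ, 0 < δ →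
      ∑ i ∈ F, c i τ * g i τ ≤ M * W τ + C * (δ * V + δ⁻¹ * (W τ - ∑ i ∈ F, c i τ ^ 2))) :
    ∀ τ ∈ Icc 0 b, W τ = 0 := by
  classical
  obtain ⟨f, hf⟩ : ∃ f : Finset ι → ℝ → ℝ, f = fun F τ => ∑ i ∈ F, c i τ ^ 2 := ⟨_, rfl⟩
  have hfx : ∀ F τ, f F τ = ∑ i ∈ F, c i τ ^ 2 := fun F τ => by rw [hf]
  have hW0 : ∀ τ ∈ Icc 0 b, 0 ≤ W τ := by
    intro τ hτ
    have := hle τ hτ ∅
    rwa [Finset.sum_empty] at this
  have hB0 : 0 ≤ B := (hW0 0 ⟨le_rfl, hb⟩).trans (hB 0 ⟨le_rfl, hb⟩)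
  have hfd : ∀ F, ∀ τ ∈ Icc 0 b, HasDerivWithinAt (f F)
      (2 * ∑ i ∈ F, s i * c i τ ^ 2 + 2 * ∑ i ∈ F, c i τ * g i τ) (Icc 0 b) τ := by
    intro F τ hτ
    have := sq_derivD s c g (fun i => hd i τ hτ) F
    rw [hf]
    exact this
  have hneg : ∀ F : Finset ι, ∀ τ, ∑ i ∈ F, s i * c i τ ^ 2 ≤ 0 := fun F τ =>
    Finset.sum_nonpos fun i _ => mul_nonpos_of_nonpos_of_nonneg (hs i) (sq_nonneg _)
  obtain ⟨L, hLdef⟩ : ∃ L : ℝ, L = 2 * (C * (V + B)) := ⟨_, rfl⟩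
  have hL0 : 0 ≤ L := by rw [hLdef]; positivity
  -- one-sided Lipschitz bounds
  have hlip : ∀ F, ∀ x ∈ Icc 0 b, ∀ y ∈ Icc 0 b, x ≤ y → f F y - f F x ≤ L * (y - x) := by
    intro F x hx y hy hxy
    have hk : ∀ τ ∈ Icc 0 b, HasDerivWithinAt (fun τ => f F τ - L * τ)
        (2 * ∑ i ∈ F, s i * c i τ ^ 2 + 2 * ∑ i ∈ F, c i τ * g i τ - L * 1) (Icc 0 b) τ := by
      intro τ hτ
      exact (hfd F τ hτ).sub ((hasDerivWithinAt_id τ (Icc 0 b)).const_mul L)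
    have hanti : AntitoneOn (fun τ => f F τ - L * τ) (Icc 0 b) := by
      refine antitoneOn_of_hasDerivWithinAt_nonpos (convex_Icc 0 b)
        (fun τ hτ => (hk τ hτ).continuousWithinAt)
        (fun τ hτ => (hk τ (interior_subset hτ)).mono interior_subset) fun τ hτ => ?_
      have hτ' : τ ∈ Icc 0 b := interior_subset hτ
      have e1 := hneg F τ
      have e2 := (le_abs_self _).trans (h1 τ hτ' F)
      have e3 : C * (V + ∑ i ∈ F, c i τ ^ 2) ≤ C * (V + B) :=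
        mul_le_mul_of_nonneg_left (add_le_add le_rfl ((hle τ hτ' F).trans (hB τ hτ'))) hC
      linarith
    have := hanti hx hy hxy
    simp only at this
    linarith
  have hres : ∀ F, ∀ x ∈ Icc 0 b, ∀ y ∈ Icc 0 b, x ≤ y →
      W y - f F y ≤ (W x - f F x) + L * (y - x) := by
    intro F x hx y hy hxy
    refine le_of_forall_pos_lt_add fun ε hε => ?_
    obtain ⟨G0, hG0⟩ := hcv y hy ε hε
    have e1 := hG0 (G0 ∪ F) Finset.subset_union_left
    have e2 := hlip ((G0 ∪ F) \ F) x hx y hy hxy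
    have e3 : ∀ τ, f ((G0 ∪ F) \ F) τ = f (G0 ∪ F) τ - f F τ := by
      intro τ
      rw [hfx, hfx, hfx]
      have := Finset.sum_sdiff (f := fun i => c i τ ^ 2) (Finset.subset_union_right (s₁ := G0)
        (s₂ := F))
      linarith
    rw [e3, e3] at e2
    rw [← hfx] at e1
    have e4 := hle x hx (G0 ∪ F)
    rw [← hfx] at e4
    linarith
  intro τ hτ
  -- constants
  obtain ⟨K, hKdef⟩ : ∃ K : ℝ, K = 2 * M + 1 := ⟨_, rfl⟩
  have hK : 0 < K := by rw [hKdef]; linarith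
  obtain ⟨R, hRdef⟩ : ∃ R : ℝ, R = 2 * M + 2 * (C * (V + 1)) := ⟨_, rfl⟩
  have hCV : 0 ≤ C * (V + 1) := mul_nonneg hC (by linarith)
  have hR : 0 ≤ R := by rw [hRdef]; linarith
  have hE : 0 ≤ Real.exp (K * τ) - 1 := by
    have := Real.add_one_le_exp (K * τ)
    have h6 : 0 ≤ K * τ := mul_nonneg hK.le hτ.1
    linarith
  refine zero_of_le (R := R / K * (Real.exp (K * τ) - 1) + 1) (hW0 τ hτ)
    (add_nonneg (mul_nonneg (div_nonneg hR hK.le) hE) zero_le_one) fun δ hδ hδ1 => ?_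
  have hδ2 : 0 < δ ^ 2 := by positivity
  have hδδ : δ ^ 2 ≤ δ := by
    rw [sq]
    exact mul_le_of_le_one_right hδ.le hδ1
  obtain ⟨F, hF⟩ := unif_of_onesided (r := fun F x => W x - f F x) hb hL0
    (fun τ hτ ε hε => by
      obtain ⟨F0, hF0⟩ := hcv τ hτ ε hε
      refine ⟨F0, fun F hF => ?_⟩
      simp only [hfx]
      exact hF0 F hF)
    (fun F x hx y hy hxy => hres F x hx y hy hxy) hδ2
  have hF' : ∀ x ∈ Icc 0 b, W x ≤ f F x + δ ^ 2 := by
    intro x hx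
    have h7 : W x - f F x < δ ^ 2 := hF x hx
    linarith
  have hG := gron (f := f F) (η := δ * R) hK (hfd F) (by
      rw [hfx]
      refine le_of_eq (Finset.sum_eq_zero fun i _ => ?_)
      rw [h0]
      norm_num)
    (fun x hx => by
      have h8 := h2 x hx F δ hδ
      rw [← hfx] at h8
      have h9 := hF' x hx
      have h10 : M * W x ≤ M * (f F x + δ) :=
        mul_le_mul_of_nonneg_left (by linarith) hM
      have h11 : δ⁻¹ * (W x - f F x) ≤ δ := by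
        have h12 : δ⁻¹ * (W x - f F x) ≤ δ⁻¹ * δ ^ 2 :=
          mul_le_mul_of_nonneg_left (by linarith) (inv_nonneg.2 hδ.le)
        have h13 : δ⁻¹ * δ ^ 2 = δ := by field_simp
        linarith
      have h14 : C * (δ * V + δ⁻¹ * (W x - f F x)) ≤ C * (δ * V + δ) :=
        mul_le_mul_of_nonneg_left (by linarith) hC
      have h15 : 0 ≤ f F x := by
        rw [hfx]
        exact Finset.sum_nonneg fun i _ => sq_nonneg _
      have h16 : 2 * (M * (f F x + δ) + C * (δ * V + δ)) + f F x = K * f F x + δ * R := by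
        rw [hKdef, hRdef]
        ring
      have h17 := hneg F x
      linarith) τ hτ
  have h17 := hF' τ hτ
  have h18 : δ * R / K * (Real.exp (K * τ) - 1) + δ =
      δ * (R / K * (Real.exp (K * τ) - 1) + 1) := by ring
  linarith

end tm

end Pool.Agent.Y170.DI
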