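import Pool.Agent.Y93.SK.UniqS
import Pool.Agent.Y8.DI.Defs
import Pool.Agent.Y170.DI.Abs

/-!
# Project DI: uniqueness in `ℝ³` with damping (S_UNIQRD); copy-edit of Y93/SK/UniqS.lean (helper93)
-/

set_option autoImplicit false

open Set Filter Topology MeasureTheory Metric

namespace Pool.Agent.Y170.DI

open Pool.Agent.Y5 (E3)
open Pool.Agent.Y303.SK
open Pool.Agent.Y93.SK
open Pool.Agent.Y8.DI

theorem SolLX.toSolX {ι : Type} {ν : ℝ} {e : ι → E3 → E3} {lam : ι → ℝ}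
    {T : ℝ} {u : ℝ → E3 → E3} (h : SolLX ν e lam T u) :
    SolX ν e id (fun i => -lam i) T u where
  smooth := h.smooth
  axi := h.axi
  dv := h.dv
  bdd := h.bdd
  eqn := fun i t ht => by
    refine (h.eqn i t ht).congr_deriv ?_
    simp only [id]
    ring

/-- Uniqueness. -/
theorem t_UNIQRD (hdens : S_DENSR) : S_UNIQRD := by
  intro ν ι e lam T u v hν hE hu hv h0 t ht
  obtain ⟨T', hT'⟩ : ∃ T' : ℝ, T' = (t + T) / 2 := ⟨_, rfl⟩
  have ht1 : t < T := ht.2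
  have ht2 : t ≤ T' := by rw [hT']; linarith
  have ht3 : T' < T := by rw [hT']; linarith
  have ht4 : 0 ≤ T' := ht.1.trans ht2
  obtain ⟨Mu, hMu⟩ := SolX.fr (SolLX.toSolX hu) ht3
  obtain ⟨Mv, hMv⟩ := SolX.fr (SolLX.toSolX hv) ht3
  obtain ⟨M, hMdef⟩ : ∃ M : ℝ, M = max (max Mu Mv) 0 := ⟨_, rfl⟩
  have hM : 0 ≤ M := by rw [hMdef]; exact le_max_right _ _
  have hMuM : Mu ≤ M := by rw [hMdef]; exact (le_max_left _ _).trans (le_max_left _ _)
  have hMvM : Mv ≤ M := by rw [hMdef]; exact (le_max_right _ _).trans (le_max_left _ _)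
  have fu : ∀ τ ∈ Icc 0 T', FR M (u τ) := hMu M hMuM
  have fv : ∀ τ ∈ Icc 0 T', FR M (v τ) := hMv M hMvM
  have he := hE.field
  have hor := hE.orth
  obtain ⟨c, hc⟩ : ∃ c : ι → ℝ → ℝ, c = fun i τ => ipr (u τ) (e i) - ipr (v τ) (e i) :=
    ⟨_, rfl⟩
  have hcx : ∀ i, ∀ τ ∈ Icc 0 T', c i τ = ipr (fun x => u τ x - v τ x) (e i) := by
    intro i τ hτ
    rw [hc]
    change ipr (u τ) (e i) - ipr (v τ) (e i) = _
    unfold ipr
    rw [← integral_sub (inn_int' (fu τ hτ).h2.c0 (CS.cont (he i)) (he i).cpt)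
      (inn_int' (fv τ hτ).h2.c0 (CS.cont (he i)) (he i).cpt)]
    refine integral_congr_ae (Eventually.of_forall fun x => ?_)
    simp only
    rw [inner_sub_left]
  have hwc : ∀ τ ∈ Icc 0 T', Continuous (fun x => u τ x - v τ x) := fun τ hτ =>
    (fu τ hτ).h2.c0.sub (fv τ hτ).h2.c0
  have hwi : ∀ τ ∈ Icc 0 T', Integrable (fun x => ‖u τ x - v τ x‖ ^ 2) := fun τ hτ =>
    l2sub (fu τ hτ).h2.c0 (fv τ hτ).h2.c0 (fu τ hτ).h2.i0 (fv τ hτ).h2.i0
  have hV : 0 ≤ 72 * ν ^ 2 * M + 8 * M ^ 3 :=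
    add_nonneg (mul_nonneg (mul_nonneg (by norm_num) (sq_nonneg _)) hM)
      (mul_nonneg (by norm_num) (pow_nonneg hM 3))
  have hsum : ∀ τ ∈ Icc 0 T', ∀ F : Finset ι,
      ∑ i ∈ F, c i τ ^ 2 = ∑ i ∈ F, ipr (fun x => u τ x - v τ x) (e i) ^ 2 := fun τ hτ F =>
    Finset.sum_congr rfl fun i _ => by rw [hcx i τ hτ]
  have hPf : ∀ τ ∈ Icc 0 T', ∀ F : Finset ι, ∫ x, ‖Pf e F (fun i => c i τ) x - (u τ x - v τ x)‖ ^ 2
      = ipr (fun x => u τ x - v τ x) (fun x => u τ x - v τ x) - ∑ i ∈ F, c i τ ^ 2 := by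
    intro τ hτ F
    have h5 := besselR (w := fun x => u τ x - v τ x) (hwc τ hτ) (hwi τ hτ) he hor F
    rw [hsum τ hτ F, ← h5]
    refine integral_congr_ae (Eventually.of_forall fun x => ?_)
    simp only
    rw [norm_sub_rev]
    have h6 : (fun i => c i τ) = fun a => ipr (fun x => u τ x - v τ x) (e a) :=
      funext fun i => hcx i τ hτ
    rw [h6]
  have hGs : ∀ τ ∈ Icc 0 T', ∀ F : Finset ι,
      ∑ i ∈ F, c i τ * ∫ x, inner ℝ (Gf ν (u τ) (v τ) x) (e i x) =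
        ∫ x, inner ℝ (Gf ν (u τ) (v τ) x) (Pf e F (fun i => c i τ) x) := fun τ hτ F =>
    (int_Pf isOpen_univ (Gf_l2 (fu τ hτ) (fv τ hτ)).1.continuousOn he F (fun i => c i τ)).symm
  have main := abs_uniqD (fun i => -lam i) (fun i => by
      have h16 := hE.nonneg i
      exact neg_nonpos.2 h16) ht4 hM zero_le_one hV c
    (fun i τ => ∫ x, inner ℝ (Gf ν (u τ) (v τ) x) (e i x))
    (fun τ => ipr (fun x => u τ x - v τ x) (fun x => u τ x - v τ x))
    (B := 4 * M) (fun τ hτ => by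
      have h6 := l2tri (fu τ hτ).h2.c0 (fv τ hτ).h2.c0 (fu τ hτ).h2.i0 (fv τ hτ).h2.i0
      have h7 := (fu τ hτ).s0
      have h8 := (fv τ hτ).s0
      rw [ipr_self]
      linarith)
    (fun i τ hτ => by
      have hτ' : τ ∈ Ico 0 T := ⟨hτ.1, hτ.2.trans_lt ht3⟩
      have h7 := ((hu.eqn i τ hτ').sub (hv.eqn i τ hτ')).mono
        (fun y hy => ⟨hy.1, hy.2.trans_lt ht3⟩ : Icc 0 T' ⊆ Ico 0 T)
      have h8 := gform isOpen_univ ν
        (cd2 (fu τ hτ).h2).contDiffOn (cd2 (fv τ hτ).h2).contDiffOn (he i)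
      rw [hc]
      refine h7.congr_deriv ?_
      simp only
      rw [← h8]
      ring)
    (fun i => by
      rw [hc]
      simp only
      rw [h0, sub_self])
    (fun τ hτ F => by
      have h9 := hPf τ hτ F
      have h10 : 0 ≤ ∫ x, ‖Pf e F (fun i => c i τ) x - (u τ x - v τ x)‖ ^ 2 :=
        integral_nonneg fun x => sq_nonneg _
      linarith)
    (fun τ hτ ε hε => by
      obtain ⟨F0, hF0⟩ := convR (w := fun x => u τ x - v τ x) he hor hE.compl (hwc τ hτ)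
        (hwi τ hτ) (fun ε hε => hdens _ ((fu τ hτ).h2.sub (fv τ hτ).h2).smooth
          (fun θ x => by
            change u τ (rtz θ x) - v τ (rtz θ x) = rtz θ (u τ x - v τ x)
            rw [(fu τ hτ).axi, (fv τ hτ).axi, rtz_sub])
          (fun x => by
            rw [dvg_sub (fu τ hτ).h2 (fv τ hτ).h2, (fu τ hτ).dv, (fv τ hτ).dv, sub_self])
          (hwi τ hτ) ε hε) ε hε
      refine ⟨F0, fun F hF => ?_⟩
      have := hF0 F hF
      rw [← hsum τ hτ F] at this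
      exact this)
    (fun τ hτ F => by
      have h11 := keyR_abs (ν := ν) (fu τ hτ) (fv τ hτ) (Pf_CS he F (fun i => c i τ))
      rw [hGs τ hτ F]
      refine h11.trans (le_of_eq ?_)
      have h12 := norm_Pf isOpen_univ he hor F (fun i => c i τ)
      rw [ipr_self] at h12
      rw [h12])
    (fun τ hτ F δ hδ => by
      have h13 := keyR hν (fu τ hτ) (fv τ hτ) (Pf_CS he F (fun i => c i τ)) hδ
      rw [hGs τ hτ F]
      refine h13.trans (le_of_eq ?_)
      rw [hPf τ hτ F, ipr_self])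
    t ⟨ht.1, ht2⟩
  have htt : t ∈ Icc 0 T' := ⟨ht.1, ht2⟩
  rw [ipr_self, integral_eq_zero_iff_of_nonneg (fun x => sq_nonneg _) (hwi t htt)] at main
  have h14 : (fun x => ‖u t x - v t x‖ ^ 2) = fun _ => (0 : ℝ) :=
    (Continuous.ae_eq_iff_eq (μ := (volume : Measure E3)) ((hwc t htt).norm.pow 2)
      continuous_const).1 main
  funext x
  have h15 := congrFun h14 x
  exact sub_eq_zero.1 (norm_eq_zero.1 (pow_eq_zero_iff (two_ne_zero)|>.1 h15))

end Pool.Agent.Y170.DI
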